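import Mathlib

/-!
# MP_2248a2_co: chromatic discrepancy can be smaller than `χ - ω`

The complement of the triangle-free circulant `C_35(1, 7, 11, 16)`, with clique number at most 8.
-/

namespace Pool.Agent.Results.MP_2248a2_co.Ramsey

open SimpleGraph Finset

def G : SimpleGraph (Fin 35) where
  Adj a b := a ≠ b ∧ (a.val + 35 - b.val) % 35 ∉ [1, 7, 11, 16, 19, 24, 28, 34]
  symm := ⟨by decide +kernel⟩
  loopless := ⟨fun _ h => h.1 rfl⟩

instance : DecidableRel G.Adj := fun a b => by unfold G; infer_instance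

def nb (u : ℕ) : ℕ := (16894064508 <<< u ||| 16894064508 >>> (35 - u)) % 2 ^ 35

theorem nb_adj : ∀ a b : Fin 35, G.Adj a b → (nb a).testBit b = true := by decide +kernel

theorem triple : ∀ a b : Fin 35, G.Adj a b ∨ a = b ∨ ∀ c, G.Adj a c ∨ G.Adj b c ∨ a = c ∨ b = c := by
  decide +kernel

def strict (n : ℕ) (f : ℕ → Bool) : Bool :=
  match n with
  | 0 => f 0
  | k + 1 => f (k + 1)

theorem strict_eq (n : ℕ) (f : ℕ → Bool) : strict n f = f n := by cases n <;> rfl

def pc : ℕ → ℕ → ℕ
  | 0, _ => 0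
  | i + 1, m => pc i m + if m.testBit i then 1 else 0

def noC : ℕ → ℕ → ℕ → Bool
  | _, _, 0 => false
  | 0, _, _ + 1 => true
  | i + 1, m, k + 1 => if m.testBit i then decide (pc i m < k) ||
      (strict (m &&& nb i) (fun t => noC i t k) && noC i m (k + 1)) else noC i m (k + 1)

theorem pc_le (m i : ℕ) : ∀ S : Finset ℕ, (∀ v ∈ S, v < i ∧ m.testBit v = true) →
    S.card ≤ pc i m := by
  induction i with
  | zero =>
    intro S h
    rw [eq_empty_of_forall_notMem fun v hv => absurd (h v hv).1 (Nat.not_lt_zero _)]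
    exact le_rfl
  | succ i ih =>
    intro S h
    have := ih (S.erase i) fun v hv => ⟨lt_of_le_of_ne (Nat.le_of_lt_succ
      (h v (mem_of_mem_erase hv)).1) (ne_of_mem_erase hv), (h v (mem_of_mem_erase hv)).2⟩
    by_cases hi : i ∈ S
    · rw [card_erase_of_mem hi] at this
      simp only [pc, (h i hi).2, if_true]
      omega
    · rw [erase_eq_of_notMem hi] at this
      exact this.trans (Nat.le_add_right _ _)

theorem noC_sound (i : ℕ) : ∀ m k, noC i m k = true → ∀ S : Finset ℕ,
    (∀ v ∈ S, v < i ∧ m.testBit v = true) →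
    (∀ u ∈ S, ∀ v ∈ S, u ≠ v → (nb u).testBit v = true) → S.card < k := by
  induction i with
  | zero =>
    intro m k h S hS _
    rw [eq_empty_of_forall_notMem fun v hv => absurd (hS v hv).1 (Nat.not_lt_zero _)]
    cases k
    · simp [noC] at h
    · simp
  | succ i ih =>
    intro m k h S hS hc
    rcases k with _ | k
    · simp [noC] at h
    have hE : ∀ v ∈ S.erase i, v < i ∧ m.testBit v = true := fun v hv =>
      ⟨lt_of_le_of_ne (Nat.le_of_lt_succ (hS v (mem_of_mem_erase hv)).1) (ne_of_mem_erase hv),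
        (hS v (mem_of_mem_erase hv)).2⟩
    have h1 := pc_le m i _ hE
    have h2 := pred_card_le_card_erase (s := S) (a := i)
    simp only [noC, strict_eq] at h
    by_cases hi : i ∈ S
    · simp only [(hS i hi).2, if_true, Bool.or_eq_true, decide_eq_true_eq, Bool.and_eq_true] at h
      rcases h with h | h
      · omega
      · have := ih _ _ h.1 (S.erase i) (fun v hv => ⟨(hE v hv).1, by
          rw [Nat.testBit_and, (hE v hv).2,
            hc i hi v (mem_of_mem_erase hv) (ne_of_mem_erase hv).symm]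
          rfl⟩) fun u hu v hv => hc u (mem_of_mem_erase hu) v (mem_of_mem_erase hv)
        omega
    · rw [erase_eq_of_notMem hi] at hE h1
      split_ifs at h
      · simp only [Bool.or_eq_true, decide_eq_true_eq, Bool.and_eq_true] at h
        rcases h with h | h
        · omega
        · exact ih _ _ h.2 S hE hc
      · exact ih _ _ h S hE hc

theorem search : noC 35 (2 ^ 35 - 1) 9 = true := by decide +kernel

theorem omega_le : G.cliqueNum ≤ 8 := by
  obtain ⟨s, hs⟩ := G.exists_isNClique_cliqueNum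
  have := noC_sound _ _ _ search (s.map Fin.valEmbedding) (fun v hv => by
    obtain ⟨a, -, rfl⟩ := mem_map.1 hv
    exact ⟨a.2, by rw [Nat.testBit_two_pow_sub_one]; exact decide_eq_true a.2⟩) fun u hu v hv h => by
    obtain ⟨a, ha, rfl⟩ := mem_map.1 hu
    obtain ⟨b, hb, rfl⟩ := mem_map.1 hv
    exact nb_adj a b (hs.isClique ha hb fun e => h (by rw [e]))
  rw [card_map, hs.card_eq] at this
  omega

theorem half {V : Type} [Fintype V] (H : SimpleGraph V)
    (h : ∀ a b c, a ≠ b → a ≠ c → b ≠ c → H.Adj a b ∨ H.Adj a c ∨ H.Adj b c) :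
    ∃ k : ℕ, H.chromaticNumber = k ∧ Fintype.card V ≤ 2 * k := by
  classical
  obtain ⟨k, hk⟩ := ENat.ne_top_iff_exists.1
    (ne_top_of_le_ne_top (ENat.coe_ne_top _) H.colorable_of_fintype.chromaticNumber_le)
  obtain ⟨C⟩ := chromaticNumber_le_iff_colorable.1 hk.ge
  refine ⟨k, hk.symm, (card_le_mul_card_image (f := C) univ 2 fun x _ => ?_).trans
    (Nat.mul_le_mul_left _ ((card_le_univ _).trans (by simp)))⟩
  by_contra hc
  obtain ⟨a, b, c, ha, hb, hc, h1, h2, h3⟩ := two_lt_card_iff.1 (not_le.1 hc)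
  rw [mem_filter] at ha hb hc
  rcases h a b c h1 h2 h3 with e | e | e
  exacts [C.valid e (ha.2.trans hb.2.symm), C.valid e (ha.2.trans hc.2.symm),
    C.valid e (hb.2.trans hc.2.symm)]

/-- A graph with a proper colouring `c` such that `|c(H)| - χ(H) < χ(G) - ω(G)` for every induced
subgraph `H`. -/
theorem result : ∃ (G : SimpleGraph (Fin 35)) (c : G.Coloring ℕ), ∀ S : Finset (Fin 35),
    ((S.image c).card + G.cliqueNum : ℕ) <
      (G.induce (S : Set (Fin 35))).chromaticNumber + G.chromaticNumber := by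
  have h3 : ∀ a b c, a ≠ b → a ≠ c → b ≠ c → G.Adj a b ∨ G.Adj a c ∨ G.Adj b c := by
    intro a b c h1 h2 h3
    rcases triple a b with h | h | h
    · exact Or.inl h
    · exact absurd h h1
    · have := h c
      tauto
  refine ⟨G, Coloring.mk (fun v => v.val / 2)
    fun {a b} => (by decide +kernel : ∀ a b, G.Adj a b → a.val / 2 ≠ b.val / 2) a b, fun S => ?_⟩
  obtain ⟨k, hk, h1⟩ := half G h3
  obtain ⟨j, hj, h2⟩ := half (G.induce (S : Set (Fin 35))) fun a b c e1 e2 e3 =>
    h3 a b c (Subtype.coe_injective.ne e1) (Subtype.coe_injective.ne e2)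
      (Subtype.coe_injective.ne e3)
  rw [hk, hj, ← Nat.cast_add, Nat.cast_lt]
  have h4 := omega_le
  have h5 := card_image_le (s := S) (f := fun v : Fin 35 => v.val / 2)
  have h6 : (S.image fun v : Fin 35 => v.val / 2).card ≤ 18 := by
    refine (card_le_card fun x hx => ?_).trans (card_range 18).le
    obtain ⟨v, -, rfl⟩ := mem_image.1 hx
    have := v.2
    exact mem_range.2 (by omega)
  simp only [Fintype.card_fin, coe_sort_coe, Fintype.card_coe] at h1 h2
  show (S.image fun v : Fin 35 => v.val / 2).card + _ < _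
  omega

end Pool.Agent.Results.MP_2248a2_co.Ramsey
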